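import Mathlib
import Pool.Agent.Helper78.MZ.Final
import Pool.Graph.R_pool_sql_team_seeded_b0a926ef.R523.LogC

/-!
# Measures of algebraic independence for logarithms over generic fields

The conjecture on the measures of algebraic independence of logarithms of algebraic numbers is compared
with the same statement for the logarithms of numbers algebraic over the field `ℚ(t_1, …, t_m)`.  For all
points `t` outside of a set of Hausdorff dimension exactly `2 m - 2` of `ℂᵐ` the two statements are
equivalent, and the second one is true for all tuples of logarithms whose span contains at most one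
logarithm of an algebraic number, up to rational multiples.
-/

set_option autoImplicit false

namespace Pool.Agent.Results.MP_3cf473_nt.GenericFields

open Module Set MvPolynomial Pool.Agent.Helper78.SC Pool.Agent.Helper78.EC Pool.Agent.Helper78.MZ
open scoped ENNReal

/-- The statement of the conjecture for the finite tuple `u`: for every `d ≥ 1` there is `C > 0` with
`|P(u)| ≥ H ^ (-C)` for all real `H ≥ 2` and all nonzero polynomials `P` with integer coefficients, of
total degree at most `d` and height at most `H`. -/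
def Measure {σ : Type} (u : σ → ℂ) : Prop :=
  ∀ d : ℕ, 0 < d → ∃ C : ℝ, 0 < C ∧ ∀ H : ℝ, 2 ≤ H → ∀ P : MvPolynomial σ ℤ, P ≠ 0 →
    P.totalDegree ≤ d → (∀ s, |((P.coeff s : ℤ) : ℝ)| ≤ H) → H ^ (-C) ≤ ‖aeval u P‖

/-- The logarithms of the nonzero algebraic numbers, a vector space over `ℚ`. -/
def Logs : Submodule ℚ ℂ where
  carrier := {l | IsAlgebraic ℚ (Complex.exp l)}
  add_mem' := by
    intro a b ha hb
    rw [mem_ofPred_eq, Complex.exp_add]
    exact IsAlgebraic.mul ha hb
  zero_mem' := by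
    rw [mem_ofPred_eq, Complex.exp_zero]
    exact isAlgebraic_one
  smul_mem' := by
    intro q l hl
    rw [mem_ofPred_eq, Rat.smul_def]
    exact Use.exp_rat hl q

/-- The field `ℚ(t_1, …, t_m)`. -/
noncomputable abbrev Fld {m : ℕ} (t : Fin m → ℂ) : IntermediateField ℚ ℂ :=
  IntermediateField.adjoin ℚ (range t)

/-- The point `t` is good, if for all logarithms `a_1, …, a_h` of algebraic numbers and all numbers
`l_1, …, l_n` which are linearly independent over `ℚ` modulo the logarithms of algebraic numbers and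
whose exponentials are algebraic over `ℚ(t)`, the tuple `(t, a, l)` has the measure property if and only
if `a` has it. -/
def Good {m : ℕ} (t : Fin m → ℂ) : Prop :=
  ∀ (h n : ℕ) (a : Fin h → ℂ) (l : Fin n → ℂ), (∀ i, a i ∈ Logs) →
    (∀ i, IsAlgebraic (Fld t) (Complex.exp (l i))) →
    (∀ q : Fin n → ℚ, ∑ i, (q i : ℂ) * l i ∈ Logs → q = 0) →
    (Measure (Sum.elim t (Sum.elim a l)) ↔ Measure a)

/-- The conjecture for at most `h` logarithms of algebraic numbers. -/
def Conjecture (h : ℕ) : Prop :=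
  ∀ n ≤ h, ∀ l : Fin n → ℂ, (∀ i, l i ∈ Logs) → LinearIndependent ℚ l → Measure l

/-- The conjecture over the field `ℚ(t)` for all tuples of logarithms whose span contains at most `h`
linearly independent logarithms of algebraic numbers. -/
def ConjectureOver {m : ℕ} (t : Fin m → ℂ) (h : ℕ) : Prop :=
  ∀ (n : ℕ) (l : Fin n → ℂ), (∀ i, IsAlgebraic (Fld t) (Complex.exp (l i))) →
    LinearIndependent ℚ l → finrank ℚ ↥(Submodule.span ℚ (range l) ⊓ Logs) ≤ h →
    Measure (Sum.elim t l)

theorem measure_iff {σ : Type} (u : σ → ℂ) : Measure u ↔ ∀ d, Meas.MeasD d u := by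
  constructor
  · intro h d
    obtain ⟨C, hC0, hC⟩ := h (d + 1) (Nat.succ_pos d)
    obtain ⟨N, hN⟩ := exists_nat_ge C
    refine ⟨N, fun H hH P hP hPd hPH => ?_⟩
    have hHr : (2 : ℝ) ≤ H := by exact_mod_cast hH
    have h1 := hC H hHr P hP (by omega) (fun s => by exact_mod_cast hPH s)
    have h2 : (H : ℝ) ^ (-(N : ℝ)) ≤ (H : ℝ) ^ (-C) :=
      Real.rpow_le_rpow_of_exponent_le (by linarith) (by linarith)
    rw [Real.rpow_neg (by linarith), Real.rpow_natCast] at h2
    have h3 : (0 : ℝ) < (H : ℝ) ^ N := by positivity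
    calc (1 : ℝ) = ((H : ℝ) ^ N)⁻¹ * (H : ℝ) ^ N := (inv_mul_cancel₀ h3.ne').symm
      _ ≤ _ := mul_le_mul_of_nonneg_right (h2.trans h1) h3.le
  · intro h d _
    obtain ⟨C, hC⟩ := h d
    refine ⟨C + 1, by positivity, fun H hH P hP hPd hPH => ?_⟩
    have h0 : (0 : ℝ) ≤ H := by linarith
    have hfl : 2 ≤ ⌊H⌋₊ := Nat.le_floor (by exact_mod_cast hH)
    have h1 := hC ⌊H⌋₊ hfl P hP hPd (by
      intro s
      have h2 : ((|P.coeff s| : ℤ) : ℝ) ≤ H := by
        push_cast
        exact hPH s
      have h3 : |P.coeff s| ≤ ⌊H⌋ := Int.le_floor.2 h2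
      rwa [← Int.natCast_floor_eq_floor h0] at h3)
    have h2 : (⌊H⌋₊ : ℝ) ^ C ≤ H ^ C := pow_le_pow_left₀ (Nat.cast_nonneg _) (Nat.floor_le h0) _
    have h3 : 1 ≤ ‖aeval u P‖ * H ^ C := h1.trans (mul_le_mul_of_nonneg_left h2 (norm_nonneg _))
    have h4 : (0 : ℝ) < H ^ C := by positivity
    have h5 : H ^ (-((C : ℝ) + 1)) ≤ H ^ (-(C : ℝ)) :=
      Real.rpow_le_rpow_of_exponent_le (by linarith) (by linarith)
    refine h5.trans ?_
    rw [Real.rpow_neg h0, Real.rpow_natCast, inv_le_iff_one_le_mul₀ h4]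
    exact h3

theorem countable_bot : Countable (⊥ : IntermediateField ℚ ℂ) :=
  Countable.of_equiv ℚ (IntermediateField.botEquiv ℚ ℂ).symm.toEquiv

theorem logs_le {x : ℂ} (hx : x ∈ Logs) : x ∈ Closure.ecl ⊥ := by
  apply Closure.log_mem
  apply Closure.alg_mem
  exact IsAlgebraic.tower_top _ (show IsAlgebraic ℚ (Complex.exp x) from hx)

/-- the tuples of logarithms of algebraic numbers -/
def Y : Set (Σ h : ℕ, (Fin h → ℂ)) := {p | ∀ i, p.2 i ∈ Logs}

theorem countable_logs : (Logs : Set ℂ).Countable := by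
  have h1 := Closure.countable countable_bot
  have h2 : ((Closure.ecl ⊥ : IntermediateField ℚ ℂ) : Set ℂ).Countable := h1.to_set
  exact h2.mono (fun x hx => logs_le hx)

theorem countable_Y : Y.Countable := by
  have h1 : Y = ⋃ h : ℕ, (Sigma.mk h) '' (Set.pi univ (fun _ : Fin h => (Logs : Set ℂ))) := by
    ext ⟨h, a⟩
    constructor
    · intro ha
      exact Set.mem_iUnion.2 ⟨h, a, fun i _ => ha i, rfl⟩
    · intro ha
      obtain ⟨h', b, hb, hab⟩ := Set.mem_iUnion.1 ha
      rw [Sigma.mk.injEq] at hab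
      obtain ⟨rfl, hab⟩ := hab
      rw [heq_eq_eq] at hab
      subst hab
      exact fun i => hb i (mem_univ i)
  rw [h1]
  exact Set.countable_iUnion (fun h => (Set.countable_univ_pi (fun _ => countable_logs)).image _)

theorem adj_eq {m : ℕ} (t : Fin m → ℂ) : Atlas.adj ⊥ t = Fld t := by
  unfold Atlas.adj
  exact bot_sup_eq _

theorem sub_measure {σ τ : Type} {u : σ → ℂ} (hu : Measure u) {e : τ → σ}
    (he : Function.Injective e) : Measure (u ∘ e) := by
  rw [measure_iff] at hu ⊢
  exact fun d => Final.sub (hu d) he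

/-- the bad set of the general theorem -/
def Bad (m : ℕ) : Set (Fin m → ℂ) :=
  {t : Fin m → ℂ | ¬ (Generic.Gen ⊥ t ∧ ∀ p ∈ Y, ∀ (k d : ℕ) (u : Fin k → ℂ),
      Meas.MeasD (p.1 * d) p.2 → (∀ i, u i ∈ Closure.ecl (Atlas.adj ⊥ t)) →
      AlgebraicIndependent (Closure.ecl ⊥) u → Meas.MeasD d (Sum.elim p.2 u))}

theorem good_of {m : ℕ} {t : Fin m → ℂ} (ht : t ∉ Bad m) : Good t := by
  unfold Bad at ht
  rw [mem_ofPred_eq, not_not] at ht
  obtain ⟨hgen, hY⟩ := ht
  intro h n a l ha hl hq
  constructor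
  · intro hm
    exact sub_measure hm (e := fun i => Sum.inr (Sum.inl i)) (by
      intro i j hij
      simpa using hij)
  · intro hm
    rw [measure_iff] at hm ⊢
    intro d
    have hai := Use.log_algInd hgen hl (fun q hq' => hq q hq')
    have h1 := hY ⟨h, a⟩ ha (m + n) d (Sum.elim t l ∘ finSumFinEquiv.symm) (hm _) (by
      intro i
      rw [adj_eq]
      obtain ⟨s, rfl⟩ := finSumFinEquiv.surjective i
      rw [Function.comp_apply, Equiv.symm_apply_apply]
      rcases s with j | j
      · exact Closure.le_ecl (IntermediateField.subset_adjoin ℚ _ ⟨j, rfl⟩)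
      · apply Closure.log_mem
        apply Closure.alg_mem
        obtain ⟨p, hp0, hp⟩ := hl j
        refine ⟨p.map (IntermediateField.inclusion Closure.le_ecl).toRingHom, ?_, ?_⟩
        · exact (Polynomial.map_ne_zero_iff (RingHom.injective
            (IntermediateField.inclusion (Closure.le_ecl (K := Fld t))).toRingHom)).2 hp0
        · rw [Polynomial.aeval_def, Polynomial.eval₂_map]
          exact hp) (hai.comp _ finSumFinEquiv.symm.injective)
    have h3 := Final.sub h1 (e := fun s : Fin m ⊕ (Fin h ⊕ Fin n) =>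
      Sum.elim (fun j => Sum.inr (finSumFinEquiv (Sum.inl j)))
        (Sum.elim (fun i => Sum.inl i) (fun i => Sum.inr (finSumFinEquiv (Sum.inr i)))) s) (by
      rintro (i | (i | i)) (j | (j | j)) hij <;>
        simp [Fin.ext_iff] at hij ⊢ <;> have h7 := i.2 <;> have h8 := j.2 <;> omega)
    convert h3 using 1
    funext s
    rcases s with j | (j | j) <;> simp

theorem measure_empty {σ : Type} [IsEmpty σ] (u : σ → ℂ) : Measure u := by
  intro d _
  refine ⟨1, one_pos, fun H hH P hP _ _ => ?_⟩
  obtain ⟨c, rfl⟩ : ∃ c : ℤ, P = C c := ⟨_, MvPolynomial.eq_C_of_isEmpty P⟩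
  have hc : c ≠ 0 := by
    rintro rfl
    exact hP (map_zero _)
  have h1 : (1 : ℝ) ≤ ‖aeval u (C c : MvPolynomial σ ℤ)‖ := by
    rw [MvPolynomial.aeval_C]
    have h2 : (algebraMap ℤ ℂ) c = (c : ℂ) := rfl
    rw [h2, Complex.norm_intCast]
    exact_mod_cast Int.one_le_abs hc
  refine le_trans ?_ h1
  rw [Real.rpow_neg (by linarith), Real.rpow_one]
  exact inv_le_one_of_one_le₀ (by linarith)

theorem not_measure {σ : Type} {u : σ → ℂ} {s : σ} (hs : u s = 0) : ¬ Measure u := by
  intro h
  obtain ⟨C, hC, h1⟩ := h 1 one_pos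
  have h2 := h1 2 le_rfl (X s) (X_ne_zero s) (totalDegree_X s).le (by
    intro s'
    classical
    rw [coeff_X]
    split_ifs <;> norm_num)
  rw [aeval_X, hs, norm_zero] at h2
  have h3 : (0 : ℝ) < (2 : ℝ) ^ (-C) := by positivity
  linarith

theorem not_good {m : ℕ} (t : Fin m → ℂ) (j : Fin m) (hj : t j = 0) : ¬ Good t := by
  intro h
  have h1 := (h 0 0 Fin.elim0 Fin.elim0 (fun i => i.elim0) (fun i => i.elim0)
    (fun q _ => funext fun i => i.elim0)).2 (measure_empty _)
  exact not_measure (s := Sum.inl j) (by exact hj) h1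

theorem not_over {m : ℕ} (t : Fin m → ℂ) (j : Fin m) (hj : t j = 0) (h : ℕ) :
    ¬ ConjectureOver t h := by
  intro hC
  have h1 := hC 0 Fin.elim0 (fun i => i.elim0) linearIndependent_empty_type (by
    rw [Set.range_eq_empty, Submodule.span_empty, bot_inf_eq, finrank_bot]
    exact Nat.zero_le _)
  exact not_measure (s := Sum.inl j) (by exact hj) h1

theorem lower {m : ℕ} (S : Set (Fin (m + 1) → ℂ)) (hS : ∀ t, t 0 = 0 → t ∈ S) :
    ((2 * m : ℕ) : ℝ≥0∞) ≤ dimH S := by
  let P : (Fin (m + 1) → ℂ) →L[ℂ] (Fin m → ℂ) :=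
    ContinuousLinearMap.pi (fun j => ContinuousLinearMap.proj j.succ)
  have h1 : (univ : Set (Fin m → ℂ)) ⊆ P '' S := by
    intro v _
    exact ⟨Fin.cons 0 v, hS _ rfl, by
      funext j
      rfl⟩
  have h2 := Real.dimH_univ_eq_finrank (Fin m → ℂ)
  have h3 : finrank ℝ (Fin m → ℂ) = 2 * m := by
    rw [finrank_real_of_complex, finrank_fintype_fun_eq_card, Fintype.card_fin]
  rw [h3] at h2
  rw [← h2]
  exact (dimH_mono h1).trans (P.lipschitz.dimH_image_le _)

theorem upper (m : ℕ) : dimH {t : Fin m → ℂ | ¬ Good t} ≤ ((2 * (m - 1) : ℕ) : ℝ≥0∞) := by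
  refine (dimH_mono (fun t ht => ?_)).trans (Final.dim_final countable_bot m Y countable_Y)
  by_contra hcon
  exact ht (good_of hcon)

theorem dim_good (m : ℕ) (hm : 1 ≤ m) :
    dimH {t : Fin m → ℂ | ¬ Good t} = ((2 * m - 2 : ℕ) : ℝ≥0∞) := by
  obtain ⟨k, rfl⟩ : ∃ k, m = k + 1 := ⟨m - 1, by omega⟩
  rw [show 2 * (k + 1) - 2 = 2 * k by omega]
  exact le_antisymm (upper (k + 1)) (lower _ (fun t ht => not_good t 0 ht))

theorem over_of {m : ℕ} {t : Fin m → ℂ} (ht : Good t) {h : ℕ} (hC : Conjecture h) :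
    ConjectureOver t h := by
  intro n l hl hli hfin
  set W := Submodule.span ℚ (range l) with hW
  have hWfin : FiniteDimensional ℚ W := FiniteDimensional.span_of_finite ℚ (finite_range l)
  have hWalg : ∀ x ∈ W, IsAlgebraic (Fld t) (Complex.exp x) := by
    intro x hx
    obtain ⟨q, rfl⟩ := (Submodule.mem_span_range_iff_exists_fun ℚ).1 hx
    have := Use.exp_sum hl q
    simpa only [Rat.smul_def] using this
  let W₀ : Submodule ℚ W := Logs.comap W.subtype
  obtain ⟨W₁, hc⟩ := W₀.exists_isCompl
  let b₀ := finBasis ℚ W₀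
  let b₁ := finBasis ℚ W₁
  have hdim : finrank ℚ W₀ ≤ h := by
    refine le_trans ?_ hfin
    have h1 : W₀.map W.subtype = W ⊓ Logs := by
      rw [Submodule.map_comap_subtype]
    rw [← h1, Submodule.finrank_map_subtype_eq]
  have h0 : Measure (fun i => ((b₀ i : W) : ℂ)) := by
    apply hC _ hdim
    · exact fun i => (b₀ i).2
    · exact (b₀.linearIndependent.map' W₀.subtype (Submodule.ker_subtype _)).map' W.subtype
        (Submodule.ker_subtype _)
  have h1 := (ht _ _ (fun i => ((b₀ i : W) : ℂ)) (fun i => ((b₁ i : W) : ℂ)) (fun i => (b₀ i).2)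
    (fun i => hWalg _ (b₁ i : W).2) (by
    intro q hq
    have h2 : (∑ i, q i • b₁ i : W₁) = 0 := by
      have h3 : ((∑ i, q i • b₁ i : W₁) : W) ∈ W₀ := by
        change (((∑ i, q i • b₁ i : W₁) : W) : ℂ) ∈ Logs
        have h4 : (((∑ i, q i • b₁ i : W₁) : W) : ℂ) = ∑ i, (q i : ℂ) * ((b₁ i : W) : ℂ) := by
          rw [Submodule.coe_sum, Submodule.coe_sum]
          exact Finset.sum_congr rfl (fun i _ => Rat.smul_def _ _)
        rw [h4]
        exact hq
      exact Subtype.ext (Submodule.disjoint_def.1 hc.disjoint _ h3 (∑ i, q i • b₁ i : W₁).2)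
    exact funext (Fintype.linearIndependent_iff.1 b₁.linearIndependent q h2))).2 h0
  rw [measure_iff] at h1 ⊢
  refine Final.change t _ l hli ?_ ?_ h1
  · -- the numbers `l` are combinations of the bases
    have key : ∀ x : W, (x : ℂ) ∈ Submodule.span ℚ (range (Sum.elim (fun i => ((b₀ i : W) : ℂ))
        (fun i => ((b₁ i : W) : ℂ)))) := by
      have e0 : ∀ x : W₀, ((x : W) : ℂ) ∈ Submodule.span ℚ
          (range (Sum.elim (fun i => ((b₀ i : W) : ℂ)) (fun i => ((b₁ i : W) : ℂ)))) := by
        intro x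
        rw [← b₀.sum_repr x, Submodule.coe_sum, Submodule.coe_sum]
        refine Submodule.sum_mem _ (fun i _ => ?_)
        exact Submodule.smul_mem _ _ (Submodule.subset_span ⟨Sum.inl i, rfl⟩)
      have e1 : ∀ x : W₁, ((x : W) : ℂ) ∈ Submodule.span ℚ
          (range (Sum.elim (fun i => ((b₀ i : W) : ℂ)) (fun i => ((b₁ i : W) : ℂ)))) := by
        intro x
        rw [← b₁.sum_repr x, Submodule.coe_sum, Submodule.coe_sum]
        refine Submodule.sum_mem _ (fun i _ => ?_)
        exact Submodule.smul_mem _ _ (Submodule.subset_span ⟨Sum.inr i, rfl⟩)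
      intro x
      have hx : x ∈ W₀ ⊔ W₁ := by
        rw [hc.sup_eq_top]
        trivial
      obtain ⟨a, ha, b, hb, rfl⟩ := Submodule.mem_sup.1 hx
      rw [Submodule.coe_add]
      exact Submodule.add_mem _ (e0 ⟨a, ha⟩) (e1 ⟨b, hb⟩)
    exact fun i => key ⟨l i, Submodule.subset_span ⟨i, rfl⟩⟩
  · rintro (i | i)
    · exact (b₀ i : W).2
    · exact (b₁ i : W).2

theorem of_over {m : ℕ} {t : Fin m → ℂ} {h : ℕ} (hC : ConjectureOver t h) : Conjecture h := by
  intro n hn l hl hli
  have h1 := hC n l (fun i => (show IsAlgebraic ℚ (Complex.exp (l i)) from hl i).tower_top _) hli (by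
    have hWfin : FiniteDimensional ℚ (Submodule.span ℚ (range l)) :=
      FiniteDimensional.span_of_finite ℚ (finite_range l)
    refine le_trans (Submodule.finrank_mono inf_le_left) ?_
    refine le_trans (finrank_range_le_card l) ?_
    rwa [Fintype.card_fin])
  exact sub_measure h1 (e := Sum.inr) Sum.inr_injective

/-- The theorem of Mahler and Feldman, with the proof of the library. -/
theorem conjecture_one : Conjecture 1 := by
  classical
  intro n hn l hl hli
  rcases Nat.le_one_iff_eq_zero_or_eq_one.1 hn with rfl | rfl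
  · exact measure_empty l
  · rw [measure_iff]
    intro d
    obtain ⟨κ, c, hκ, hc, h⟩ := Pool.Agent.R523.LM.measT_of_exp (l 0) (hli.ne_zero 0) (hl 0) d
    obtain ⟨a, ha⟩ := exists_nat_ge κ
    obtain ⟨b, hb⟩ := pow_unbounded_of_one_lt (c⁻¹) one_lt_two
    refine ⟨a + b, fun H hH P hP hPd hPH => ?_⟩
    have hHr : (1 : ℝ) ≤ H := by exact_mod_cast (by omega : 1 ≤ H)
    have hHr2 : (2 : ℝ) ≤ H := by exact_mod_cast hH
    let e : Fin (d + 1) → (Fin 1 →₀ ℕ) := fun j => Meas.em (fun _ => j)
    let Q : Polynomial ℤ := ∑ j : Fin (d + 1), Polynomial.monomial (j : ℕ) (P.coeff (e j))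
    have hQc : ∀ j : Fin (d + 1), Q.coeff j = P.coeff (e j) := by
      intro j
      rw [Polynomial.finsetSum_coeff, Finset.sum_eq_single j]
      · rw [Polynomial.coeff_monomial, if_pos rfl]
      · intro i _ hi
        rw [Polynomial.coeff_monomial, if_neg (fun h => hi (Fin.ext h))]
      · intro h
        exact absurd (Finset.mem_univ _) h
    have hQ0 : ∀ j, d < j → Q.coeff j = 0 := by
      intro j hj
      rw [Polynomial.finsetSum_coeff]
      refine Finset.sum_eq_zero (fun i _ => ?_)
      rw [Polynomial.coeff_monomial, if_neg (fun h => ?_)]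
      have := i.2
      omega
    have h1 : aeval l P = Polynomial.aeval (l 0) Q := by
      rw [Meas.aeval_eq (d := d) (fun s hs i => Meas.le_of_mem hPd hs i), map_sum,
        ← (Equiv.funUnique (Fin 1) (Fin (d + 1))).symm.sum_comp]
      refine Finset.sum_congr rfl (fun j _ => ?_)
      rw [Polynomial.aeval_monomial, Fin.prod_univ_one]
      rfl
    have h2 := h Q (by
      intro h0
      obtain ⟨r, hr⟩ := Meas.exists_coeff (d := d) (fun s hs i => Meas.le_of_mem hPd hs i) hP
      apply hr
      have h3 : Meas.em r = e (r 0) := by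
        unfold e
        congr 1
        funext i
        rw [Subsingleton.elim i 0]
      rw [h3, ← hQc, h0, Polynomial.coeff_zero]) (by
      rw [Polynomial.natDegree_le_iff_coeff_eq_zero]
      exact hQ0) H hHr (by
      intro j
      by_cases hj : d < j
      · rw [hQ0 j hj]
        simp
      · have h3 := hQc ⟨j, by omega⟩
        change Q.coeff j = _ at h3
        rw [h3]
        exact_mod_cast hPH _)
    rw [← h1] at h2
    have h3 : (H : ℝ) ^ κ ≤ (H : ℝ) ^ a := by
      rw [← Real.rpow_natCast]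
      exact Real.rpow_le_rpow_of_exponent_le hHr ha
    have h4 : c⁻¹ ≤ (H : ℝ) ^ b := hb.le.trans (pow_le_pow_left₀ (by norm_num) hHr2 _)
    calc (1 : ℝ) = c * c⁻¹ := (mul_inv_cancel₀ hc.ne').symm
      _ ≤ ((H : ℝ) ^ κ * ‖aeval l P‖) * (H : ℝ) ^ b := by
          apply mul_le_mul h2 h4 (by positivity) (by positivity)
      _ ≤ ((H : ℝ) ^ a * ‖aeval l P‖) * (H : ℝ) ^ b := by
          apply mul_le_mul_of_nonneg_right _ (by positivity)
          exact mul_le_mul_of_nonneg_right h3 (norm_nonneg _)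
      _ = _ := by
          rw [pow_add]
          ring

/-- **Main result.** (1) For `m ≥ 1` the set of the points `t` of `ℂᵐ` which are not good has Hausdorff
dimension exactly `2 m - 2`. (2) For every good `t` the conjecture over `ℚ(t)` is true for all tuples of
logarithms whose span contains at most one logarithm of an algebraic number, up to rational multiples; in
particular `(t, l)` has the measure property for all logarithms `l_1, …, l_n` of numbers algebraic over
`ℚ(t)` which are linearly independent over `ℚ` modulo the logarithms of algebraic numbers. (3) For every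
good `t` and every `h` the conjecture for at most `h` logarithms of algebraic numbers is equivalent to the
conjecture over `ℚ(t)` for all tuples whose span contains at most `h` independent logarithms of algebraic
numbers. (4) For every good `t` the conjecture is equivalent to the conjecture over `ℚ(t)` without
restriction. (5) Zero-one law: for `m ≥ 1` the set of the points `t` of `ℂᵐ` for which the conjecture over
`ℚ(t)` with at most `h` logarithms of algebraic numbers fails has Hausdorff dimension exactly `2 m - 2` if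
the conjecture for at most `h` logarithms of algebraic numbers is true, and is the whole of `ℂᵐ`
otherwise. -/
theorem result :
    (∀ m : ℕ, 1 ≤ m → dimH {t : Fin m → ℂ | ¬ Good t} = ((2 * m - 2 : ℕ) : ℝ≥0∞)) ∧
    (∀ (m : ℕ) (t : Fin m → ℂ), Good t → ConjectureOver t 1 ∧ ∀ (n : ℕ) (l : Fin n → ℂ),
      (∀ i, IsAlgebraic (Fld t) (Complex.exp (l i))) →
      (∀ q : Fin n → ℚ, ∑ i, (q i : ℂ) * l i ∈ Logs → q = 0) → Measure (Sum.elim t l)) ∧
    (∀ (m : ℕ) (t : Fin m → ℂ), Good t → ∀ h : ℕ, Conjecture h ↔ ConjectureOver t h) ∧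
    (∀ (m : ℕ) (t : Fin m → ℂ), Good t →
      ((∀ (n : ℕ) (l : Fin n → ℂ), (∀ i, IsAlgebraic ℚ (Complex.exp (l i))) →
          LinearIndependent ℚ l → Measure l) ↔
        ∀ (n : ℕ) (l : Fin n → ℂ), (∀ i, IsAlgebraic (Fld t) (Complex.exp (l i))) →
          LinearIndependent ℚ l → Measure (Sum.elim t l))) ∧
    (∀ m : ℕ, 1 ≤ m → ∀ h : ℕ,
      (Conjecture h → dimH {t : Fin m → ℂ | ¬ ConjectureOver t h} = ((2 * m - 2 : ℕ) : ℝ≥0∞)) ∧
      (¬ Conjecture h → {t : Fin m → ℂ | ¬ ConjectureOver t h} = univ)) := by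
  refine ⟨dim_good, fun m t ht => ⟨over_of ht conjecture_one, ?_⟩,
    fun m t ht h => ⟨over_of ht, of_over⟩,
    fun m t ht => ⟨fun h n l hl hli => ?_, fun h n l hl hli => ?_⟩, fun m hm h => ⟨fun hC => ?_, fun hC => ?_⟩⟩
  · intro n l hl hq
    have h1 := (ht 0 n Fin.elim0 l (fun i => i.elim0) hl hq).2 (measure_empty _)
    have h2 := sub_measure h1 (e := fun s : Fin m ⊕ Fin n =>
      Sum.elim (fun j => Sum.inl j) (fun i => Sum.inr (Sum.inr i)) s) (by
      rintro (i | i) (j | j) hij <;> simp at hij ⊢ <;> exact hij)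
    convert h2 using 1
    funext s
    rcases s with j | j <;> rfl
  · exact over_of ht (h := finrank ℚ ↥(Submodule.span ℚ (range l) ⊓ Logs))
      (fun n' _ l' hl' hli' => h n' l' hl' hli') n l hl hli le_rfl
  · exact sub_measure (h n l (fun i => (hl i).tower_top _) hli) (e := Sum.inr) Sum.inr_injective
  · obtain ⟨k, rfl⟩ : ∃ k, m = k + 1 := ⟨m - 1, by omega⟩
    rw [show 2 * (k + 1) - 2 = 2 * k by omega]
    refine le_antisymm ((dimH_mono ?_).trans (upper (k + 1)))
      (lower _ (fun t ht => not_over t 0 ht h))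
    exact fun t ht hg => ht (over_of hg hC)
  · rw [eq_univ_iff_forall]
    exact fun t ht => hC (of_over ht)

end Pool.Agent.Results.MP_3cf473_nt.GenericFields
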