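import Pool.Agent.Helper80.MM.A4

/-!
# The estimate for all values that are not zero does not give algebraic independence

`Pool.Agent.Helper56.NL.ExpField` (file `Pool/Agent/Helper56/NL/Def.lean`) is the structure of an
exponential field: an algebraically closed subfield `K` of `ℂ`, stable under complex conjugation, with a
surjective homomorphism `E` from the additive to the multiplicative group of `K` that commutes with the
conjugation, and whose kernel is `2 p i ℤ` for a real number `p > 0`. `IsLog F u` says that `u ∈ K` and
that `E u` is algebraic.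

The estimate of the problem says two things: the values `P(u)` are not zero, and the values that are not
zero are not small. For every `D ≥ 3` there is an exponential field with the true `π` in which the second
part holds in all degrees, for all tuples of logarithms of algebraic numbers, and the first part in
degree at most `D` (so that the estimate of the problem holds in degree at most `D`), together with the
theorem of Lindemann and Weierstrass, the strong four exponentials conjecture and Schanuel's conjecture
modulo logarithms, but in which no two logarithms of algebraic numbers are algebraically independent.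

The field is the one of `MP_60829e_nt.NoTwoLogarithms`, in which every logarithm of an algebraic number
is a polynomial in `π` over `ℚ(i)`; the estimate comes from the transcendence measure of `π`.
-/

set_option autoImplicit false

namespace Pool.Agent.Results.MP_3cf473_nt.NonzeroValues

open Pool.Agent.Helper56.NL (ExpField IsLog LindemannWeierstrass StrongFourExponentials
  SchanuelModuloLogs)

/-- The estimate for the values that are not zero, in all degrees `d`, for all tuples `u` of logarithms of
algebraic numbers of the exponential field `F`. -/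
def NonzeroMeasure (F : ExpField) : Prop :=
  ∀ (n : ℕ) (u : Fin n → ℂ), (∀ i, IsLog F (u i)) → ∀ d : ℕ,
    ∃ C : ℝ, 0 < C ∧ ∀ H : ℝ, 2 ≤ H → ∀ P : MvPolynomial (Fin n) ℤ,
      P.totalDegree ≤ d → (∀ s, |((P.coeff s : ℤ) : ℝ)| ≤ H) → MvPolynomial.aeval u P ≠ 0 →
        H ^ (-C) ≤ ‖MvPolynomial.aeval u P‖

/-- The estimate of the problem for polynomials of degree at most `D`, for all tuples of rationally
independent logarithms of algebraic numbers of the exponential field `F`. -/
def MeasureInDegree (F : ExpField) (D : ℕ) : Prop :=
  ∀ (n : ℕ) (u : Fin n → ℂ), (∀ i, IsLog F (u i)) → LinearIndependent ℚ u →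
    ∃ C : ℝ, 0 < C ∧ ∀ H : ℝ, 2 ≤ H → ∀ P : MvPolynomial (Fin n) ℤ, P ≠ 0 →
      P.totalDegree ≤ D → (∀ s, |((P.coeff s : ℤ) : ℝ)| ≤ H) →
        H ^ (-C) ≤ ‖MvPolynomial.aeval u P‖

/-- The statement of the problem (Q1). -/
def Q1 : Prop :=
  ∀ (n : ℕ) (l : Fin n → ℂ), (∀ i, IsAlgebraic ℚ (Complex.exp (l i))) → LinearIndependent ℚ l →
    ∀ d : ℕ, ∃ C : ℝ, 0 < C ∧ ∀ H : ℝ, 2 ≤ H → ∀ P : MvPolynomial (Fin n) ℤ, P ≠ 0 →
      P.totalDegree ≤ d → (∀ s, |((P.coeff s : ℤ) : ℝ)| ≤ H) →
        H ^ (-C) ≤ ‖MvPolynomial.aeval l P‖

/-- (1) For `D ≥ 3`, `ε > 0`, finitely many algebraic numbers `α j` and finitely many logarithms `w j` of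
algebraic numbers there is an exponential field with the true `π` in which the estimate for the values
that are not zero holds in all degrees, the estimate of the problem in degree at most `D`, the theorem of
Lindemann and Weierstrass, the strong four exponentials conjecture and Schanuel's conjecture modulo
logarithms, in which `E` is close to `exp` at the `α j` and the numbers `exp (w j)` have logarithms close
to `w j`, but in which no two logarithms of algebraic numbers are algebraically independent.
(2) The field of the complex numbers with the exponential function is an exponential field in the same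
sense, and in it the estimate in all degrees is Q1. -/
theorem result :
    (∀ D : ℕ, 3 ≤ D → ∀ ε : ℝ, 0 < ε → ∀ (r m : ℕ) (α : Fin r → ℂ) (w : Fin m → ℂ),
      (∀ j, IsAlgebraic ℚ (α j)) → (∀ j, IsAlgebraic ℚ (Complex.exp (w j))) →
        ∃ F : ExpField, F.p = Real.pi ∧ NonzeroMeasure F ∧ MeasureInDegree F D ∧
          LindemannWeierstrass F ∧ StrongFourExponentials F ∧ SchanuelModuloLogs F ∧
            (∀ u v, IsLog F u → IsLog F v → ¬ AlgebraicIndependent ℚ ![u, v]) ∧
              (∀ j, ‖F.E (α j) - Complex.exp (α j)‖ < ε) ∧
                ∀ j, ∃ u ∈ F.K, F.E u = Complex.exp (w j) ∧ ‖u - w j‖ < ε) ∧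
    (∃ F : ExpField, F.K = ⊤ ∧ F.E = Complex.exp ∧ F.p = Real.pi ∧
      ((∀ D, MeasureInDegree F D) ↔ Q1)) := by
  refine ⟨fun D hD ε hε r m α w hα hw => ?_, ?_⟩
  swap
  · obtain ⟨F, h1, h2, h3, _, h5⟩ := Pool.Agent.Helper80.MM.complex
    exact ⟨F, h1, h2, h3, h5⟩
  obtain ⟨F, hp, hm, hLW, hfour, _, hsch, hall, he, hw'⟩ :=
    Pool.Agent.Helper80.MM.modelsA hD hε α hα w hw
  exact ⟨F, hp, Pool.Agent.Helper80.MM.nonzero hp hall, hm, hLW, hfour, hsch,
    fun u v hu hv => Pool.Agent.Helper56.NL.not_indep hall hu hv, he, hw'⟩

end Pool.Agent.Results.MP_3cf473_nt.NonzeroValues
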