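import Pool.Agent.Helper80.MM.Fin
import Pool.Agent.Helper76.MM.PIM
import Pool.Agent.Helper32.MM.METR
import Pool.Agent.Helper33.MM.STEP
import Pool.Agent.Helper82.MM.FIRST
import Pool.Agent.Helper78.MM.SEQ
import Pool.Agent.Helper58.MM.LOGB
import Pool.Agent.Helper41.MM.PB2
import Pool.Agent.Helper47.MM.SCHL
import Pool.Agent.Helper45.MM.FLD
import Pool.Agent.Helper85.MM.Meas
import Pool.Agent.Helper18.MM.FAIL

/-!
# Schanuel's conjecture and the measure in degree `D` do not give the measure in degree `D + 1`

`Pool.Agent.Helper56.NL.ExpField` (file `Pool/Agent/Helper56/NL/Def.lean`) is the structure of an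
exponential field: an algebraically closed subfield `K` of `ℂ`, stable under complex conjugation, with a
surjective homomorphism `E` from the additive to the multiplicative group of `K` that commutes with the
conjugation, and whose kernel is `2 p i ℤ` for a real number `p > 0`. `IsLog F u` says that `u ∈ K` and
that `E u` is algebraic.

For every `D ≥ 0` there is an exponential field `F` with the true `π` (`p = π`) in which Schanuel's
conjecture holds and in which the estimate `|P(u)| ≥ H ^ (-C)` of the problem holds for all rationally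
independent logarithms `u` of algebraic numbers and all nonzero integral polynomials `P` of degree at
most `D`, but not for the polynomials of degree at most `D + 1`: it fails for two real logarithms of the
numbers 2 and 3.

The field is a free extension (Zilber, Kirby) of the field generated by the logarithms of the algebraic
numbers, which get new values: `π, u, L u ^ (D + 1)` with a Liouville number `L`, and all others generic.
-/

set_option autoImplicit false

namespace Pool.Agent.Results.MP_3cf473_nt.OneMoreDegree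

open Pool.Agent.Helper56.NL (ExpField IsLog)

/-- Schanuel's conjecture in the exponential field `F`: among the numbers `z j, E (z j)` there are `n`
algebraically independent ones, if the `n` numbers `z j ∈ F` are rationally independent. -/
def Schanuel (F : ExpField) : Prop :=
  ∀ (n : ℕ) (z : Fin n → ℂ), (∀ i, z i ∈ F.K) → LinearIndependent ℚ z →
    ∃ f : Fin n → ℂ, (∀ i, f i ∈ Set.range z ∪ Set.range fun j => F.E (z j)) ∧
      AlgebraicIndependent ℚ f

/-- The estimate of the problem for polynomials of degree at most `D`, for all tuples of rationally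
independent logarithms of algebraic numbers of the exponential field `F`. -/
def MeasureInDegree (F : ExpField) (D : ℕ) : Prop :=
  ∀ (n : ℕ) (u : Fin n → ℂ), (∀ i, IsLog F (u i)) → LinearIndependent ℚ u →
    ∃ C : ℝ, 0 < C ∧ ∀ H : ℝ, 2 ≤ H → ∀ P : MvPolynomial (Fin n) ℤ, P ≠ 0 →
      P.totalDegree ≤ D → (∀ s, |((P.coeff s : ℤ) : ℝ)| ≤ H) →
        H ^ (-C) ≤ ‖MvPolynomial.aeval u P‖

/-- Schanuel's conjecture for the complex numbers. -/
def SchanuelConjecture : Prop := ∀ (n : ℕ) (z : Fin n → ℂ), LinearIndependent ℚ z →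
  ∃ f : Fin n → ℂ, (∀ i, f i ∈ Set.range z ∪ Set.range fun j => Complex.exp (z j)) ∧
    AlgebraicIndependent ℚ f

/-- The statement of the problem (Q1). -/
def Q1 : Prop :=
  ∀ (n : ℕ) (l : Fin n → ℂ), (∀ i, IsAlgebraic ℚ (Complex.exp (l i))) → LinearIndependent ℚ l →
    ∀ d : ℕ, ∃ C : ℝ, 0 < C ∧ ∀ H : ℝ, 2 ≤ H → ∀ P : MvPolynomial (Fin n) ℤ, P ≠ 0 →
      P.totalDegree ≤ d → (∀ s, |((P.coeff s : ℤ) : ℝ)| ≤ H) →
        H ^ (-C) ≤ ‖MvPolynomial.aeval l P‖

/-- (1) For every `D` there is an exponential field with the true `π` in which Schanuel's conjecture and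
the estimate of the problem in degree at most `D` hold, but not the estimate in degree at most `D + 1`;
in fact it fails for two real logarithms of the numbers 2 and 3, no value being zero.
(2) The field of the complex numbers with the exponential function is an exponential field in the same
sense, and in it the two properties are Schanuel's conjecture and (for all `D` together) Q1. -/
theorem result :
    (∀ D : ℕ, ∃ F : ExpField, F.p = Real.pi ∧ Schanuel F ∧ MeasureInDegree F D ∧
      ¬ MeasureInDegree F (D + 1) ∧
      ∃ u v : ℝ, (u : ℂ) ∈ F.K ∧ (v : ℂ) ∈ F.K ∧ F.E u = 2 ∧ F.E v = 3 ∧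
        ∀ C : ℝ, 0 < C → ∃ H : ℝ, 2 ≤ H ∧ ∃ P : MvPolynomial (Fin 2) ℤ, P ≠ 0 ∧
          P.totalDegree ≤ D + 1 ∧ (∀ s, |((P.coeff s : ℤ) : ℝ)| ≤ H) ∧
          0 < ‖MvPolynomial.aeval ![(u : ℂ), (v : ℂ)] P‖ ∧
          ‖MvPolynomial.aeval ![(u : ℂ), (v : ℂ)] P‖ < H ^ (-C)) ∧
    (∃ F : ExpField, F.K = ⊤ ∧ F.E = Complex.exp ∧ F.p = Real.pi ∧
      (Schanuel F ↔ SchanuelConjecture) ∧ ((∀ D, MeasureInDegree F D) ↔ Q1)) :=
  ⟨fun D => Pool.Agent.Helper80.MM.final2 Pool.Agent.Helper76.MM.pim Pool.Agent.Helper32.MM.metr
      Pool.Agent.Helper33.MM.step Pool.Agent.Helper82.MM.first Pool.Agent.Helper78.MM.seq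
      Pool.Agent.Helper58.MM.logb Pool.Agent.Helper13.MM.pb1 Pool.Agent.Helper41.MM.pb2
      Pool.Agent.Helper47.MM.schl Pool.Agent.Helper45.MM.fld Pool.Agent.Helper85.MM.meas
      Pool.Agent.Helper18.MM.fail D,
    Pool.Agent.Helper80.MM.complex⟩

end Pool.Agent.Results.MP_3cf473_nt.OneMoreDegree
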